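import Pool.Agent.N150.PN.KodE

/-!
If the sections of the multiples of a divisor grow at most like `m ^ h` and `h` ratios of sections
are algebraically independent then all ratios of sections are algebraic over these.
-/

set_option autoImplicit false

open FF Module Pool.Agent.W602.GT Pool.Agent.TH756.PR Pool.Agent.TH152.AC Pool.Agent.TH756.PN

namespace Pool.Agent.N150.PN

variable {N : ℕ} {K : Type} [Field K] [Algebra ℂ K]

/-- monomials in algebraically independent elements are linearly independent -/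
theorem mono_indep {σ : Type} [Fintype σ] {u : σ → K} (hu : AlgebraicIndependent ℂ u) {k : ℕ} :
    LinearIndependent ℂ (fun a : σ → Fin (k + 1) => ∏ o, u o ^ (a o : ℕ)) := by
  classical
  have h1 : LinearIndependent ℂ (fun m : σ →₀ ℕ => MvPolynomial.aeval u
      (MvPolynomial.monomial m (1 : ℂ))) := by
    have h2 := (MvPolynomial.basisMonomials σ ℂ).linearIndependent.map'
      (MvPolynomial.aeval u : MvPolynomial σ ℂ →ₐ[ℂ] K).toLinearMap
      (LinearMap.ker_eq_bot.2 hu)
    have h3 : (fun m : σ →₀ ℕ => MvPolynomial.aeval u (MvPolynomial.monomial m (1 : ℂ))) =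
        ⇑(MvPolynomial.aeval u : MvPolynomial σ ℂ →ₐ[ℂ] K).toLinearMap ∘
          ⇑(MvPolynomial.basisMonomials σ ℂ) := by
      funext m
      simp
    rw [h3]
    exact h2
  have h3 := h1.comp (fun a : σ → Fin (k + 1) => Finsupp.equivFunOnFinite.symm fun o => (a o : ℕ))
    (by
      intro a b hab
      funext o
      have h4 := DFunLike.congr_fun hab o
      simp only [Finsupp.equivFunOnFinite_symm_apply_apply] at h4
      exact Fin.ext h4)
  have h4 : (fun a : σ → Fin (k + 1) => ∏ o, u o ^ (a o : ℕ)) =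
      (fun m : σ →₀ ℕ => MvPolynomial.aeval u (MvPolynomial.monomial m (1 : ℂ))) ∘
        fun a : σ → Fin (k + 1) => Finsupp.equivFunOnFinite.symm fun o => (a o : ℕ) := by
    funext a
    simp only [Function.comp_apply]
    rw [MvPolynomial.aeval_monomial, map_one, one_mul, Finsupp.prod_fintype _ _ (by simp)]
    simp
  rw [h4]
  exact h3

variable {V : Set (Place ℂ K)} {δ : Place ℂ K → ℝ}

theorem PSec.mul {m m' : ℕ} {ω ω' : (Fin N → Derivation ℂ K K) → K} (h : PSec N V δ m ω)
    (h' : PSec N V δ m' ω') : PSec N V δ (m + m') (fun D => ω D * ω' D) := by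
  refine ⟨fun A D => ?_, fun P hP hd D hD => ?_⟩
  · change ω _ * ω' _ = _
    rw [h.1 A D, h'.1 A D]
    ring
  · by_cases h1 : ω D = 0
    · left
      change ω D * ω' D = 0
      rw [h1, zero_mul]
    by_cases h2 : ω' D = 0
    · left
      change ω D * ω' D = 0
      rw [h2, mul_zero]
    right
    have h3 := (h.2 P hP hd D hD).resolve_left h1
    have h4 := (h'.2 P hP hd D hD).resolve_left h2
    change _ ≤ ((P.ord (ω D * ω' D) : ℤ) : ℝ)
    rw [P.ord_mul h1 h2]
    push_cast
    linarith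

theorem PSec.one : PSec N V δ 0 (fun _ : Fin N → Derivation ℂ K K => (1 : K)) := by
  refine ⟨fun A D => ?_, fun P _ _ D _ => ?_⟩
  · simp
  · right
    change _ ≤ ((P.ord 1 : ℤ) : ℝ)
    rw [P.ord_one]
    simp

theorem PSec.pow {m : ℕ} {ω : (Fin N → Derivation ℂ K K) → K} (h : PSec N V δ m ω) (k : ℕ) :
    PSec N V δ (k * m) (fun D => ω D ^ k) := by
  induction k with
  | zero => simpa using PSec.one
  | succ k ih =>
    have h1 := PSec.mul ih h
    rw [add_mul, one_mul]
    simpa [pow_succ] using h1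

theorem PSec.prod {ι : Type} (s : Finset ι) {m : ι → ℕ}
    {ω : ι → (Fin N → Derivation ℂ K K) → K} (h : ∀ i ∈ s, PSec N V δ (m i) (ω i)) :
    PSec N V δ (∑ i ∈ s, m i) (fun D => ∏ i ∈ s, ω i D) := by
  classical
  induction s using Finset.induction_on with
  | empty => simpa using PSec.one
  | insert a s ha ih =>
    have h1 := PSec.mul (h a (Finset.mem_insert_self a s))
      (ih fun i hi => h i (Finset.mem_insert_of_mem hi))
    rw [Finset.sum_insert ha]
    convert h1 using 1
    funext D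
    rw [Finset.prod_insert ha]

/-- **Algebraicity of the ratios.** -/
theorem alg_of_num {h : ℕ} (hν : NumLeP ℂ K N V δ h) {m1 m2 : ℕ} (hm1 : 0 < m1)
    {η : Fin (h + 1) → (Fin N → Derivation ℂ K K) → K} (hη : ∀ b, PSec N V δ m1 (η b))
    {D : Fin N → Derivation ℂ K K} (hη0 : η 0 D ≠ 0)
    (hu : AlgebraicIndependent ℂ fun b : Fin h => η b.succ D / η 0 D)
    {ω ω' : (Fin N → Derivation ℂ K K) → K} (hω : PSec N V δ m2 ω) (hω' : PSec N V δ m2 ω')
    (hω0 : ω D ≠ 0) :
    IsAlgebraic (Algebra.adjoin ℂ (Set.range fun b : Fin h => η b.succ D / η 0 D))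
      (ω' D / ω D) := by
  classical
  by_contra hcon
  have hcon' : Transcendental (Algebra.adjoin ℂ (Set.range fun b : Fin h => η b.succ D / η 0 D))
      (ω' D / ω D) := hcon
  have hall := (hu.option_iff_transcendental _).2 hcon'
  obtain ⟨C, hC⟩ := hν {1}
  -- the degree
  obtain ⟨c, hc⟩ : ∃ c : ℕ, c = (h + 1) * m1 + m2 := ⟨_, rfl⟩
  have hc0 : 0 < c := by rw [hc]; positivity
  obtain ⟨k, hk⟩ : ∃ k : ℕ, k = C * c ^ h + 1 := ⟨_, rfl⟩
  have hk0 : 0 < k := by omega
  let sec : (Option (Fin h) → Fin (k + 1)) → (Fin N → Derivation ℂ K K) → K := fun a D =>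
    η 0 D ^ k * ((∏ b : Fin h, η b.succ D ^ (a (some b) : ℕ) * η 0 D ^ (k - (a (some b) : ℕ))) *
      (ω' D ^ (a none : ℕ) * ω D ^ (k - (a none : ℕ))))
  have hsec : ∀ a, PSec N V δ (k * c) (sec a) := by
    intro a
    have h1 : ∀ b : Fin h, PSec N V δ (k * m1)
        (fun D => η b.succ D ^ (a (some b) : ℕ) * η 0 D ^ (k - (a (some b) : ℕ))) := by
      intro b
      have h2 := PSec.mul (PSec.pow (hη b.succ) (a (some b))) (PSec.pow (hη 0) (k - (a (some b) : ℕ)))
      have h3 : (a (some b) : ℕ) * m1 + (k - (a (some b) : ℕ)) * m1 = k * m1 := by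
        rw [← add_mul, Nat.add_sub_cancel' (Nat.lt_succ_iff.1 (a (some b)).2)]
      rwa [h3] at h2
    have h4 : PSec N V δ (k * m2) (fun D => ω' D ^ (a none : ℕ) * ω D ^ (k - (a none : ℕ))) := by
      have h2 := PSec.mul (PSec.pow hω' (a none)) (PSec.pow hω (k - (a none : ℕ)))
      have h3 : (a none : ℕ) * m2 + (k - (a none : ℕ)) * m2 = k * m2 := by
        rw [← add_mul, Nat.add_sub_cancel' (Nat.lt_succ_iff.1 (a none).2)]
      rwa [h3] at h2
    have h5 := PSec.mul (PSec.pow (hη 0) k) (PSec.mul (PSec.prod Finset.univ fun b _ => h1 b) h4)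
    have h6 : k * m1 + ((∑ _b : Fin h, k * m1) + k * m2) = k * c := by
      rw [Finset.sum_const, Finset.card_univ, Fintype.card_fin, smul_eq_mul, hc]
      ring
    rw [h6] at h5
    exact h5
  obtain ⟨z, hz⟩ : ∃ z : K, z = η 0 D ^ k * ((∏ _b : Fin h, η 0 D ^ k) * ω D ^ k) := ⟨_, rfl⟩
  have hz0 : z ≠ 0 := by
    rw [hz]
    exact mul_ne_zero (pow_ne_zero _ hη0) (mul_ne_zero
      (Finset.prod_ne_zero_iff.2 fun _ _ => pow_ne_zero _ hη0) (pow_ne_zero _ hω0))
  have hval : ∀ a, sec a D = z * ∏ o, (o.elim (ω' D / ω D)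
      (fun b : Fin h => η b.succ D / η 0 D) : K) ^ (a o : ℕ) := by
    intro a
    have h1 : ∀ (y w : K) (i : ℕ), w ≠ 0 → i ≤ k → y ^ i * w ^ (k - i) = w ^ k * (y / w) ^ i := by
      intro y w i hw hi
      rw [div_pow]
      have h2 : w ^ k = w ^ i * w ^ (k - i) := by rw [← pow_add, Nat.add_sub_cancel' hi]
      rw [h2]
      field_simp
    change η 0 D ^ k * ((∏ b : Fin h, η b.succ D ^ (a (some b) : ℕ) *
      η 0 D ^ (k - (a (some b) : ℕ))) * (ω' D ^ (a none : ℕ) * ω D ^ (k - (a none : ℕ)))) = _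
    rw [Fintype.prod_option, h1 _ _ _ hω0 (Nat.lt_succ_iff.1 (a none).2),
      Finset.prod_congr rfl fun b _ => h1 _ _ _ hη0 (Nat.lt_succ_iff.1 (a (some b)).2),
      Finset.prod_mul_distrib, hz]
    simp only [Option.elim]
    ring
  have hind : LinearIndependent ℂ sec := by
    have h1 := mono_indep hall (k := k)
    have h2 : LinearIndependent ℂ (fun a : Option (Fin h) → Fin (k + 1) => sec a D) := by
      have h3 := h1.map' (LinearMap.mulLeft ℂ z) (LinearMap.ker_eq_bot.2 fun y y' hy => by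
        simpa [hz0] using hy)
      have h4 : (fun a : Option (Fin h) → Fin (k + 1) => sec a D) = ⇑(LinearMap.mulLeft ℂ z) ∘
          fun a : Option (Fin h) → Fin (k + 1) => ∏ o, (o.elim (ω' D / ω D)
            (fun b : Fin h => η b.succ D / η 0 D) : K) ^ (a o : ℕ) := by
        funext a
        rw [hval a]
        rfl
      rw [h4]
      exact h3
    exact LinearIndependent.of_comp (LinearMap.proj D : ((Fin N → Derivation ℂ K K) → K) →ₗ[ℂ] K) h2
  have hcard : Fintype.card (Option (Fin h) → Fin (k + 1)) = (k + 1) ^ (h + 1) := by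
    simp
  let eq := (Fintype.equivFinOfCardEq hcard).symm
  have h1 := hC (k * c) ((k + 1) ^ (h + 1)) (Nat.one_le_iff_ne_zero.2 (by positivity))
    ⟨sec ∘ eq, hind.comp _ eq.injective, fun l => ⟨(hsec (eq l)).1, fun P hP hd D hD => by
      rcases (hsec (eq l)).2 P hP hd D hD with h2 | h2
      · exact Or.inl h2
      · refine Or.inr ⟨1, Finset.mem_singleton_self 1, one_ne_zero, ?_⟩
        rw [P.ord_one]
        push_cast at h2 ⊢
        simp only [Function.comp_apply]
        linarith⟩⟩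
  have h2 : C * (k * c) ^ h < (k + 1) ^ (h + 1) := by
    calc C * (k * c) ^ h = (C * c ^ h) * k ^ h := by rw [mul_pow]; ring
      _ ≤ k * k ^ h := Nat.mul_le_mul_right _ (by omega)
      _ = k ^ (h + 1) := by ring
      _ < (k + 1) ^ (h + 1) := Nat.pow_lt_pow_left (Nat.lt_succ_self k) (Nat.succ_ne_zero h)
  omega

end Pool.Agent.N150.PN
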