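import Pool.Agent.N150.PN.Grow

/-!
The Iitaka fibration of pairs on generically finite covers of a product of projective spaces.
-/

set_option autoImplicit false
set_option linter.overlappingInstances false
set_option linter.unusedSectionVars false

open FF IntermediateField Pool.Agent.W603.LV Pool.Agent.W602.GT Pool.Agent.W602.Cov
open Pool.Agent.W602.Cov.G Pool.Agent.TH152.AC Pool.Agent.W619.PQ
open Pool.Agent.TH122.AB Pool.Agent.TH756.AR Pool.Agent.TH756.PR Pool.Agent.TH756.PN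
open MvPolynomial Module

namespace Pool.Agent.N150.PN

/-- a form of positive weight only has nonzero values on bases of the vector fields -/
theorem det_ne {N : ℕ} {K : Type} [Field K] [Algebra ℂ K] {t : Fin N → K}
    (ht : IsTranscendenceBasis ℂ t) {m : ℕ} (hm : 0 < m) {ω : (Fin N → Derivation ℂ K K) → K}
    (hω : IsPluri m ω) {D : Fin N → Derivation ℂ K K} (hD : ω D ≠ 0) :
    (Matrix.of fun a b : Fin N => D a (t b)).det ≠ 0 := by
  obtain ⟨D0, hD0⟩ := exists_dual (k := ℂ) ht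
  intro h0
  apply hD
  have h1 : D = fun i => ∑ j, (Matrix.of fun a b : Fin N => D a (t b)) i j • D0 j := by
    funext i
    ext g
    rw [der_expand ht hD0 (D i) g]
    have h3 : ∀ s : Finset (Fin N), (∑ j ∈ s, (Matrix.of fun a b : Fin N => D a (t b)) i j •
        D0 j) g = ∑ j ∈ s, D i (t j) * D0 j g := by
      intro s
      induction s using Finset.induction_on with
      | empty => simp
      | insert c s hc ih =>
        rw [Finset.sum_insert hc, Finset.sum_insert hc, Derivation.add_apply, ih]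
        simp
    rw [h3]
  rw [h1, hω, h0, zero_pow hm.ne', zero_mul]

variable {r : ℕ} {n q : Fin r → ℕ} {ℓ : ∀ i, Fin (q i) → Form (n i)} {K : Type} [Field K]
  [Algebra ℂ K] {x : ∀ i, Fin (n i + 1) → K}

/-- **The Iitaka fibration.** -/
theorem iitaka_main {N : ℕ} (hr : 1 ≤ r) (hn : ∀ i, 1 ≤ n i) (hN : N = ∑ i, n i)
    (hℓ : ∀ i k, ℓ i k ≠ 0) (g : ∀ i, (Fin (q i) → ℕ) → ℚ) (hg : ∀ i, Wtd (ℓ i) (g i))
    (I : Finset (Fin r)) (k0 : ∀ i, Fin (q i)) (w : ∀ i, Fin (q i) → ℚ)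
    (hw0 : ∀ i, i ∉ I → ∀ k, 0 ≤ w i k) (hw1 : ∀ i, i ∉ I → ∑ k, w i k = (n i : ℚ) + 1)
    (F : Finset (MvPolynomial ((i : Fin r) × Fin (n i)) ℂ)) (hF0 : ∀ f ∈ F, f ≠ 0)
    (hF : ∀ f ∈ F, ∀ i, i ∉ I → degI i f = 0)
    (hx0 : ∀ i, x i 0 ≠ 0) (hbas : IsTranscendenceBasis ℂ (aff x))
    (hfd : FiniteDimensional (IntermediateField.adjoin ℂ (Set.range (aff x))) K)
    (V : Set (Place ℂ K)) (hV : ∀ f : K, f ≠ 0 → {P ∈ V | P.ord f ≠ 0}.Finite)
    (hVL : ∀ P m, LiesOver x P m → P ∈ V) (δ : Place ℂ K → ℝ) (hδ0 : ∀ P ∈ V, 0 ≤ δ P)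
    (hδ1 : ∀ P ∈ V, δ P ≤ 1)
    (hlow : ∀ P ∈ V, Divisorial N P → ∀ (a : Fin r → ℤ) (v : ∀ i, Fin (q i) → ℕ), Nrm ℓ x P a v →
      (∃ i, v i ≠ 0) → 1 - δ P ≤ ((∑ i, g i (v i) : ℚ) : ℝ) ∧
        ((∃ i ∈ I, v i (k0 i) ≠ 0) → 1 - δ P < ((∑ i, g i (v i) : ℚ) : ℝ)))
    (hup : ∀ P m, LiesOver x P m → ∀ (a : Fin r → ℤ) (v : ∀ i, Fin (q i) → ℕ), Nrm ℓ x P a v →
      ((∀ i, v i = 0) → (∀ f ∈ F, P.ord (aeval (aff x) f) = 0) → m = 1 ∧ δ P ≤ 0) ∧
        ∀ i, i ∉ I → v i ≠ 0 → (m : ℝ) - ((∑ k, w i k * v i k : ℚ) : ℝ) ≤ 1 - δ P) :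
    NumLeP ℂ K N V δ (∑ i ∈ I, n i) ∧
    (∃ T : ℕ, 0 < T ∧ ∃ ω₀ : (Fin N → Derivation ℂ K K) → K, (∃ D, ω₀ D ≠ 0) ∧
      PSec N V δ T ω₀ ∧ ∀ i ∈ I, ∀ j, PSec N V δ T (fun D => x i j / x i 0 * ω₀ D)) ∧
    ∀ m, 0 < m → ∀ ω ω', PSec N V δ m ω → PSec N V δ m ω' → ∀ D, ω D ≠ 0 →
      IsAlgebraic (Algebra.adjoin ℂ {z : K | ∃ i ∈ I, ∃ j, z = x i j / x i 0}) (ω' D / ω D) := by
  classical
  have hν := (pairs_main hr hn hN hℓ g hg I k0 w hw0 hw1 F hF0 hF hx0 hbas hfd V hV hVL δ hδ0 hδ1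
    hlow hup).2
  refine ⟨hν, ?_⟩
  obtain ⟨N', rfl⟩ : ∃ N', N = N' + 1 := by
    have h1 : n ⟨0, hr⟩ ≤ ∑ i, n i :=
      Finset.single_le_sum (f := n) (fun _ _ => Nat.zero_le _) (Finset.mem_univ _)
    have h2 := hn ⟨0, hr⟩
    exact ⟨N - 1, by omega⟩
  let e : ((i : Fin r) × Fin (n i)) ≃ Fin (N' + 1) :=
    finSigmaFinEquiv.trans (finCongr hN.symm)
  have hspan : ∀ i, Submodule.span ℂ (Set.range (ℓ i)) = ⊤ := fun i => (hg i).span
  have hlx : ∀ i k, lf (ℓ i k) (x i) ≠ 0 := fun i k => lfs_ne hx0 hbas i (hℓ i k)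
  have hbas' : IsTranscendenceBasis ℂ (uu e x) := basis_uu e hbas
  choose p hp0 hp using hg
  have hcard := card_free e I
  obtain ⟨s, hs⟩ : ∃ s : Finset (Fin (N' + 1)), s = Finset.univ.filter
    fun b : Fin (N' + 1) => ∀ t : {i : Fin r // i ∉ I}, b ∉ bk e t.1 := ⟨_, rfl⟩
  rw [← hs] at hcard
  have hmem : ∀ c : Fin (N' + 1), c ∈ s ↔ (e.symm c).1 ∈ I := by
    intro c
    rw [hs, Finset.mem_filter]
    constructor
    · rintro ⟨-, h1⟩
      by_contra hcon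
      exact h1 ⟨_, hcon⟩ ((mem_bk e).2 rfl)
    · intro h1
      refine ⟨Finset.mem_univ _, fun t ht => t.2 ?_⟩
      rw [mem_bk] at ht
      rw [← ht]
      exact h1
  obtain ⟨T, hT, ω, hω, hne, hrat⟩ := kodGeE e hspan p hp0 g hp hlx hx0 hbas' V hV δ hδ0 I k0
    (fun P hPV hPd a v hord hsp hv0 => hlow P hPV hPd a v (nrm hspan hlx hord hsp) hv0)
    (∑ i ∈ I, n i) (s.orderEmbOfFin hcard) (s.orderEmbOfFin hcard).injective fun b =>
      (hmem _).1 (Finset.orderEmbOfFin_mem s hcard b)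
  have huu : ∀ b, ∃ i ∈ I, ∃ j, uu e x (s.orderEmbOfFin hcard b) = x i j / x i 0 := fun b =>
    ⟨_, (hmem _).1 (Finset.orderEmbOfFin_mem s hcard b), _, rfl⟩
  have huu' : ∀ i ∈ I, ∀ j : Fin (n i), ∃ b, uu e x (s.orderEmbOfFin hcard b) =
      x i j.succ / x i 0 := by
    intro i hi j
    have h1 : e ⟨i, j⟩ ∈ s := by
      rw [hmem, Equiv.symm_apply_apply]
      exact hi
    have h2 : e ⟨i, j⟩ ∈ Set.range (s.orderEmbOfFin hcard) := by
      rw [Finset.range_orderEmbOfFin]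
      exact h1
    obtain ⟨b, hb⟩ := h2
    refine ⟨b, ?_⟩
    rw [hb]
    unfold uu
    rw [Equiv.symm_apply_apply]
    rfl
  obtain ⟨D1, hD1⟩ := exists_om_ne e hx0 hbas'
  refine ⟨⟨T, hT, ω 0, ⟨D1, hne D1 hD1⟩, hω 0, fun i hi j => ?_⟩, ?_⟩
  · refine Fin.cases ?_ (fun j => ?_) j
    · rw [div_self (hx0 i)]
      simpa using hω 0
    · obtain ⟨b, hb⟩ := huu' i hi j
      have h1 := hω b.succ
      have h2 : ω b.succ = fun D => x i j.succ / x i 0 * ω 0 D := by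
        funext D
        rw [hrat b D, hb]
      rwa [h2] at h1
  · intro m hm η η' hη hη' D hD
    have hdet := det_ne hbas' hm hη.1 hD
    have hω0 : ω 0 D ≠ 0 := by
      apply hne
      unfold om
      exact mul_ne_zero (Finset.prod_ne_zero_iff.2 fun i _ => pow_ne_zero _ (hx0 i)) hdet
    have hu : (fun b : Fin (∑ i ∈ I, n i) => ω b.succ D / ω 0 D) =
        uu e x ∘ (s.orderEmbOfFin hcard) := by
      funext b
      rw [hrat b D, mul_div_assoc, div_self hω0, mul_one]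
      rfl
    have halg := alg_of_num hν hT hω hω0 (by
      rw [hu]
      exact hbas'.1.comp _ (s.orderEmbOfFin hcard).injective) hη hη' hD
    rw [hu] at halg
    have hsub : Algebra.adjoin ℂ (Set.range (uu e x ∘ (s.orderEmbOfFin hcard))) ≤
        Algebra.adjoin ℂ {z : K | ∃ i ∈ I, ∃ j, z = x i j / x i 0} := by
      apply Algebra.adjoin_mono
      rintro _ ⟨b, rfl⟩
      exact huu b
    obtain ⟨f, hf0, hf⟩ := halg
    refine ⟨f.map (Subalgebra.inclusion hsub).toRingHom, ?_, ?_⟩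
    · rw [Ne, Polynomial.map_eq_zero_iff (Subalgebra.inclusion_injective hsub)]
      exact hf0
    · rw [Polynomial.aeval_def] at hf ⊢
      rw [Polynomial.eval₂_map]
      exact hf

end Pool.Agent.N150.PN
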